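import Pool.Agent.Helper99_Eng3.Stmts

set_option autoImplicit false

namespace Pool.Agent.Eng.H13

open Module

/-- On the range of a projection with nonzero kernel, a nilpotent map has index at most
`finrank - 1`. -/
theorem oafl_nilp {K V : Type} [Field K] [AddCommGroup V] [Module K V] [FiniteDimensional K V]
    (m T : ℕ) (D P : Module.End K V) (hfr : finrank K V = m + 1) (hc : D * P = P * D)
    (hD : D ^ T * P = 0) (k : V) (hk : k ≠ 0) (hPk : P k = 0) : D ^ m * P = 0 := by
  have hcomm : ∀ j : ℕ, D ^ j * P = P * D ^ j := fun j =>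
    ((show Commute D P from hc).pow_left j).eq
  have hfr' : finrank K (LinearMap.range P) ≤ m := by
    have h1 := LinearMap.finrank_range_add_finrank_ker P
    have h2 : 0 < finrank K (LinearMap.ker P) := by
      rw [Module.finrank_pos_iff_exists_ne_zero]
      refine ⟨⟨k, hPk⟩, ?_⟩
      intro h
      exact hk (congrArg Subtype.val h)
    omega
  have hmaps : ∀ x ∈ LinearMap.range P, D x ∈ LinearMap.range P := by
    rintro x ⟨y, rfl⟩
    refine ⟨D y, ?_⟩
    have := congrArg (fun f : Module.End K V => f y) hc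
    simpa using this.symm
  have hnil : (D.restrict hmaps) ^ T = 0 := by
    rw [Module.End.pow_restrict T hmaps]
    ext ⟨x, y, rfl⟩
    have := congrArg (fun f : Module.End K V => f y) hD
    simpa using this
  have hm : (D.restrict hmaps) ^ m = 0 := by
    have h1 := Module.End.ker_pow_le_ker_pow_finrank (D.restrict hmaps) T
    rw [hnil] at h1
    have h2 : (D.restrict hmaps) ^ (finrank K (LinearMap.range P)) = 0 := by
      ext x
      have : x ∈ LinearMap.ker (0 : Module.End K (LinearMap.range P)) := by simp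
      have := h1 this
      rw [LinearMap.mem_ker] at this
      rw [this]
      simp
    exact pow_eq_zero_of_le hfr' h2
  ext y
  have h3 := congrArg (fun f => ((f ⟨P y, y, rfl⟩ : LinearMap.range P) : V)) hm
  simp only [Module.End.pow_restrict m hmaps] at h3
  simpa using h3

/-- A finite monoid has idempotent powers. -/
theorem oafl_idem {M : Type} [Monoid M] [Finite M] (x : M) : ∃ T : ℕ, 0 < T ∧
    x ^ (T + T) = x ^ T := by
  obtain ⟨j, k, hjk, he⟩ := Finite.exists_ne_map_eq_of_infinite (fun j : ℕ => x ^ j)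
  wlog hlt : j < k generalizing j k
  · exact this k j hjk.symm he.symm (by omega)
  obtain ⟨s, rfl⟩ := Nat.exists_eq_add_of_lt hlt
  change x ^ j = x ^ (j + s + 1) at he
  have h1 : ∀ t i : ℕ, x ^ (j + i + (s + 1) * t) = x ^ (j + i) := by
    intro t
    induction t with
    | zero => intro i; simp
    | succ t ih =>
      intro i
      have : j + i + (s + 1) * (t + 1) = (j + s + 1) + (i + (s + 1) * t) := by ring
      rw [this, pow_add, ← he, ← pow_add, ← ih i]
      congr 1
      ring
  refine ⟨(s + 1) * (j + 1), by positivity, ?_⟩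
  have h2 := h1 (j + 1) ((s + 1) * (j + 1) - j)
  have h3 : j ≤ (s + 1) * (j + 1) := by nlinarith
  rw [Nat.add_sub_cancel' h3] at h2
  exact h2

theorem oafl_reduction (p a m : ℕ) (W : Type) [AddCommGroup W] [Module (ZMod (p ^ a)) W]
    [Module.Free (ZMod (p ^ a)) W] [Module.Finite (ZMod (p ^ a)) W] (hp : p.Prime) (ha : 1 ≤ a)
    (hfr : finrank (ZMod (p ^ a)) W = m) : ∃ (ψ : Module.End (ZMod (p ^ a)) W →+*
      Module.End (ZMod p) (Fin m → ZMod p)) (ρ : W →+ (Fin m → ZMod p)),
      (∀ v, ρ v = 0 ↔ ∃ u, v = p • u) ∧ (∀ T v, ρ (T v) = ψ T (ρ v)) ∧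
      ∀ v (c : ℕ), c < a → p ^ c • v = 0 → ρ v = 0 := by
  have : Fact p.Prime := ⟨hp⟩
  have : Fact (1 < p ^ a) := ⟨Nat.one_lt_pow (by omega) hp.one_lt⟩
  have hd : p ∣ p ^ a := dvd_pow_self p (by omega)
  let b : Basis (Fin m) (ZMod (p ^ a)) W := Module.finBasisOfFinrankEq _ _ hfr
  let c : ZMod (p ^ a) →+* ZMod p := ZMod.castHom hd (ZMod p)
  have hc0 : ∀ x : ZMod (p ^ a), c x = 0 ↔ ∃ y, x = p • y := by
    intro x
    constructor
    · intro hx
      have hx' : ((x.val : ℕ) : ZMod p) = 0 := by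
        have : c x = ((x.val : ℕ) : ZMod p) := by
          conv_lhs => rw [← ZMod.natCast_zmod_val x]
          exact map_natCast c x.val
        rw [← this, hx]
      rw [ZMod.natCast_eq_zero_iff] at hx'
      obtain ⟨y, hy⟩ := hx'
      refine ⟨(y : ZMod (p ^ a)), ?_⟩
      rw [← ZMod.natCast_zmod_val x, hy]
      simp [nsmul_eq_mul]
    · rintro ⟨y, rfl⟩
      simp
  refine ⟨(((Matrix.toLinAlgEquiv' (R := ZMod p) (n := Fin m)).toRingEquiv.toRingHom).comp
    (c.mapMatrix)).comp (LinearMap.toMatrixAlgEquiv b).toRingEquiv.toRingHom,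
    { toFun := fun v j => c (b.repr v j), map_zero' := ?_, map_add' := ?_ }, ?_, ?_, ?_⟩
  · ext j; simp
  · intro v w; ext j; simp
  · intro v
    constructor
    · intro h
      have h1 : ∀ j, ∃ y, b.repr v j = p • y := by
        intro j
        rw [← hc0]
        exact congrFun h j
      choose y hy using h1
      refine ⟨b.equivFun.symm y, ?_⟩
      apply b.equivFun.injective
      rw [map_nsmul, LinearEquiv.apply_symm_apply]
      ext j
      exact hy j
    · rintro ⟨u, rfl⟩
      ext j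
      change c (b.repr (p • u) j) = 0
      rw [hc0]
      exact ⟨b.repr u j, by simp⟩
  · intro T v
    ext j
    change c (b.repr (T v) j) = ((c.mapMatrix (LinearMap.toMatrix b b T)).mulVec
      (fun j => c (b.repr v j))) j
    rw [← LinearMap.toMatrix_mulVec_repr b b T v]
    have := c.map_mulVec (LinearMap.toMatrix b b T) (b.repr v) j
    rw [this]
    rfl
  · intro v k hk hv
    ext j
    change c (b.repr v j) = 0
    have h1 : p ^ k • b.repr v j = 0 := by
      have := congrArg (fun u => b.repr u j) hv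
      simpa using this
    generalize b.repr v j = x at h1
    have h2 : ((p ^ k * x.val : ℕ) : ZMod (p ^ a)) = 0 := by
      rw [Nat.cast_mul, ZMod.natCast_zmod_val, ← nsmul_eq_mul, h1]
    rw [ZMod.natCast_eq_zero_iff] at h2
    have h3 : p ∣ x.val := by
      obtain ⟨t, rfl⟩ := Nat.exists_eq_add_of_lt hk
      have h4 : p ^ k * (p ^ (t + 1)) ∣ p ^ k * x.val := by
        rw [← pow_add]
        exact h2
      have h5 := Nat.dvd_of_mul_dvd_mul_left (pow_pos hp.pos k) h4
      exact (dvd_pow_self p (by omega)).trans h5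
    have h6 : c x = ((x.val : ℕ) : ZMod p) := by
      conv_lhs => rw [← ZMod.natCast_zmod_val x]
      exact map_natCast c x.val
    rw [h6, ZMod.natCast_eq_zero_iff]
    exact h3

/-- Induction step: from `A` to `A ^ l`. -/
theorem oafl_step {W : Type} {R : Type} [CommRing R] [AddCommGroup W] [Module R W]
    (A P : Module.End R W) (p j : ℕ)
    (hA : ∀ x, ∃ y, A (P x) = P x + p ^ (j + 1) • P y) (x y : W)
    (hy : A (P x) = P x + p ^ (j + 1) • P y) (l : ℕ) :
    ∃ z, (A ^ l) (P x) = P x + (l * p ^ (j + 1)) • P y + p ^ (j + 2) • z := by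
  induction l with
  | zero => exact ⟨0, by simp⟩
  | succ l ih =>
    obtain ⟨z, hz⟩ := ih
    obtain ⟨y2, hy2⟩ := hA y
    refine ⟨(l * p ^ j) • P y2 + A z, ?_⟩
    rw [pow_succ', Module.End.mul_apply, hz, map_add, map_add, map_nsmul, map_nsmul, hy, hy2]
    simp only [smul_add, ← mul_smul]
    have e1 : l * p ^ (j + 1) * p ^ (j + 1) = p ^ (j + 2) * (l * p ^ j) := by ring
    have e2 : (l + 1) * p ^ (j + 1) = p ^ (j + 1) + l * p ^ (j + 1) := by ring
    rw [e1, e2, add_smul]
    abel

theorem oafl : OaflStmt := by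
  intro p b a W _ _ _ _ E κ τ w i n hp ha hfr hEκ hκ hEτ hτ hi hn h
  by_contra hcon
  have : Fact p.Prime := ⟨hp⟩
  have : Fact (1 < p ^ a) := ⟨Nat.one_lt_pow (by omega) hp.one_lt⟩
  obtain ⟨c, n2, hn2, rfl⟩ := Nat.exists_eq_pow_mul_and_not_dvd hn.ne' p hp.ne_one
  have hca : c < a := by
    by_contra hc
    exact hcon (dvd_mul_of_dvd_left (pow_dvd_pow p (by omega)) n2)
  have hn2' : 0 < n2 := Nat.pos_of_ne_zero (by rintro rfl; exact hn2 (dvd_zero p))
  obtain ⟨ψ, ρ, hρ0, hρ1, hρ2⟩ := oafl_reduction p a (p ^ b + 1) W hp ha hfr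
  have hWfin : Finite W := Module.finite_of_finite (ZMod (p ^ a))
  have hEfin : Finite (Module.End (ZMod (p ^ a)) W) :=
    Finite.of_injective (fun f : Module.End (ZMod (p ^ a)) W => (f : W → W))
      DFunLike.coe_injective
  set D : Module.End (ZMod (p ^ a)) W := E ^ n2 - 1 with hD
  obtain ⟨T, hT, hidem⟩ := oafl_idem D
  set P : Module.End (ZMod (p ^ a)) W := 1 - D ^ T with hP
  have hED : Commute E D := ((Commute.refl E).pow_right n2).sub_right (Commute.one_right E)
  have hEP : Commute E P := (Commute.one_right E).sub_right (hED.pow_right T)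
  have hDP : Commute D P := (Commute.one_right D).sub_right ((Commute.refl D).pow_right T)
  have hPP : P * P = P := by
    rw [hP, mul_sub, sub_mul, sub_mul, ← pow_add, hidem]
    simp
  have hDTP : D ^ T * P = 0 := by
    rw [hP, mul_sub, ← pow_add, hidem]
    simp
  have hDκ : D κ = - κ := by
    have : (E ^ n2) κ = 0 := by
      obtain ⟨s, rfl⟩ := Nat.exists_eq_add_of_lt hn2'
      rw [zero_add, pow_succ, Module.End.mul_apply, hEκ, map_zero]
    rw [hD, LinearMap.sub_apply, this]
    simp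
  have hDκ' : ∀ t : ℕ, (D ^ t) κ = (-1 : ℤ) ^ t • κ := by
    intro t
    induction t with
    | zero => simp
    | succ t ih =>
      rw [pow_succ', Module.End.mul_apply, ih, map_zsmul, hDκ, pow_succ]
      simp
  have hPκ : P κ = 0 := by
    have h1 : (D ^ T) κ = κ := by
      rw [← hidem, hDκ']
      simp [← two_mul]
    rw [hP, LinearMap.sub_apply, h1]
    simp
  have hDτ : D τ = 0 := by
    have : ∀ t : ℕ, (E ^ t) τ = τ := by
      intro t
      induction t with
      | zero => simp
      | succ t ih => rw [pow_succ', Module.End.mul_apply, ih, hEτ]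
    rw [hD, LinearMap.sub_apply, this]
    simp
  have hPτ : P τ = τ := by
    have h1 : (D ^ T) τ = 0 := by
      obtain ⟨s, rfl⟩ := Nat.exists_eq_add_of_lt hT
      rw [zero_add, pow_succ, Module.End.mul_apply, hDτ, map_zero]
    rw [hP, LinearMap.sub_apply, h1]
    simp
  have key : (ψ D) ^ (p ^ b) * ψ P = 0 := by
    apply oafl_nilp (p ^ b) T (ψ D) (ψ P) (Module.finrank_fin_fun _) _ _ (ρ κ)
    · intro h0
      exact hκ ((hρ0 κ).1 h0)
    · rw [← hρ1, hPκ, map_zero]
    · rw [← map_mul, ← map_mul, hDP.eq]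
    · rw [← map_pow, ← map_mul, hDTP, map_zero]
  have hDm : ∀ x, ∃ y, (D ^ (p ^ b)) (P x) = p • y := by
    intro x
    rw [← hρ0, ← Module.End.mul_apply, hρ1, map_mul, map_pow, key]
    simp
  obtain ⟨r0, hr0⟩ := (Commute.one_left D).exists_add_pow_prime_pow_eq hp b
  have hE1 : (1 : Module.End (ZMod (p ^ a)) W) + D = E ^ n2 := by rw [hD]; abel
  rw [hE1, one_pow] at hr0
  obtain ⟨r, hr⟩ : ∃ r : Module.End (ZMod (p ^ a)) W,
      (E ^ n2) ^ p ^ b = 1 + D ^ p ^ b + p • r := by
    refine ⟨D * r0, ?_⟩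
    rw [hr0, nsmul_eq_mul, mul_one, mul_assoc]
  have hcomm : ∀ (t : ℕ) (x : W), P ((E ^ t) x) = (E ^ t) (P x) := by
    intro t x
    rw [← Module.End.mul_apply, ← Module.End.mul_apply, (hEP.pow_left t).eq]
  have hPPx : ∀ x, P (P x) = P x := by
    intro x
    rw [← Module.End.mul_apply, hPP]
  have main : ∀ j : ℕ, ∀ x, ∃ y, (E ^ (n2 * p ^ b * p ^ j)) (P x) = P x + p ^ (j + 1) • P y := by
    intro j
    induction j with
    | zero =>
      intro x
      obtain ⟨y, hy⟩ := hDm x
      refine ⟨y + r (P x), ?_⟩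
      have h1 : (E ^ (n2 * p ^ b * p ^ 0)) (P x) = P x + p • (y + r (P x)) := by
        rw [pow_zero, mul_one, pow_mul, hr, LinearMap.add_apply, LinearMap.add_apply, hy]
        rw [smul_add, ← add_assoc]
        congr 1
      have h2 := congrArg P h1
      rw [hcomm, hPPx, map_add, hPPx, map_nsmul] at h2
      rw [h2]
      simp
    | succ j ih =>
      intro x
      obtain ⟨y, hy⟩ := ih x
      obtain ⟨z, hz⟩ := oafl_step (E ^ (n2 * p ^ b * p ^ j)) P p j ih x y hy p
      refine ⟨P y + z, ?_⟩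
      rw [← pow_mul, mul_assoc, ← pow_succ] at hz
      have h2 := congrArg P hz
      rw [hcomm, hPPx, map_add, map_add, hPPx, map_nsmul, map_nsmul, hPPx] at h2
      rw [h2, map_add, hPPx, smul_add, ← add_assoc]
      congr 3
      ring
  obtain ⟨y, hy⟩ := main c w
  have h1 := congrArg P h
  rw [hcomm] at h1
  have e1 : p ^ b * (p ^ c * n2) = n2 * p ^ b * p ^ c := by ring
  rw [e1, hy, map_add] at h1
  have h2 : p ^ (c + 1) • P y = (i * (p ^ c * n2)) • τ := by
    have h3 := add_left_cancel h1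
    rw [h3]
    rw [map_nsmul, hPτ]
  have h4 : p ^ c • ((i * n2) • τ - p • P y) = 0 := by
    rw [smul_sub, ← mul_smul, ← mul_smul, ← pow_succ, h2, sub_eq_zero]
    congr 1
    ring
  have h5 := hρ2 _ c hca h4
  have h6 : ρ (p • P y) = 0 := (hρ0 _).2 ⟨_, rfl⟩
  rw [map_sub, h6, sub_zero, map_nsmul] at h5
  have h7 : ρ τ = 0 := by
    rw [← Nat.cast_smul_eq_nsmul (ZMod p)] at h5
    rcases smul_eq_zero.1 h5 with h8 | h8
    · rw [ZMod.natCast_eq_zero_iff] at h8
      rcases hp.dvd_mul.1 h8 with h9 | h9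
      · exact absurd h9 hi
      · exact absurd h9 hn2
    · exact h8
  exact hτ ((hρ0 τ).1 h7)

end Pool.Agent.Eng.H13
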