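import Pool.Agent.Helper34_Eng.Ostd

set_option autoImplicit false

namespace Pool.Agent.Eng.H13

open Module Pool.Agent.Eng.H34

/-- The star ring structure on a quadratic extension. -/
@[instance_reducible] noncomputable def ocunStar (F L : Type) [Field F] [Finite F] [Field L] [Algebra F L]
    [FiniteDimensional F L] (h : finrank F L = 2 * 1) : StarRing L where
  star := fun x => fr F L 1 x
  star_involutive := fun x => fr_2m h x
  star_mul := fun x y => by
    change fr F L 1 (x * y) = fr F L 1 y * fr F L 1 x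
    rw [map_mul, mul_comm]
  star_add := fun x y => map_add _ x y

/-- The quadratic form over `F` of a hermitian form over `L`. -/
theorem ocun_form {F L V : Type} [Field F] [Finite F] [Field L] [Algebra F L]
    [FiniteDimensional F L] [StarRing L] [AddCommGroup V] [Module L V] [Module F V]
    [IsScalarTower F L V] (h2 : finrank F L = 2 * 1) (hs : ∀ x : L, star x = fr F L 1 x)
    (h : V → V → L) (hh : IsHerm h) :
    ∃ P : QuadraticForm F V, (∀ x, algebraMap F L (P x) = h x x) ∧ ND P := by
  have hinj : Function.Injective (algebraMap F L) := (algebraMap F L).injective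
  have hfix : ∀ x, ∃ a : F, algebraMap F L a = h x x := fun x =>
    mem_range_of_fixed F L _ (by rw [← hs]; exact (hh.symm x x).symm)
  choose q hq using hfix
  have hal : ∀ u v w, h (u + v) w = h u w + h v w := by
    intro u v w
    rw [hh.symm w (u + v), hh.add_right, star_add, ← hh.symm, ← hh.symm]
  have hsa : ∀ a : F, star (algebraMap F L a) = algebraMap F L a := by
    intro a
    rw [hs]
    exact (fr F L 1).commutes a
  have hsr : ∀ (a : F) (u v : V), h u (a • v) = algebraMap F L a * h u v := by
    intro a u v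
    rw [← algebraMap_smul L a v, hh.smul_right]
  have hsl : ∀ (a : F) (u v : V), h (a • u) v = algebraMap F L a * h u v := by
    intro a u v
    rw [hh.symm v (a • u), hsr, star_mul, hsa, ← hh.symm, mul_comm]
  have htr : ∀ z : L, algebraMap F L (Algebra.trace F L z) = z + star z := by
    intro z
    rw [trace_fr, h2, hs]
    rw [Finset.sum_range_succ, Finset.sum_range_one, fr_zero]
  let B : LinearMap.BilinMap F V F := LinearMap.mk₂ F (fun x y => Algebra.trace F L (h x y))
    (fun x y z => by rw [hal, map_add])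
    (fun a x y => by rw [hsl, ← Algebra.smul_def, map_smul])
    (fun x y z => by rw [hh.add_right, map_add])
    (fun a x y => by rw [hsr, ← Algebra.smul_def, map_smul])
  have hadd : ∀ x y, q (x + y) = q x + q y + B x y := by
    intro x y
    apply hinj
    rw [hq, map_add, map_add, hq, hq]
    change _ = _ + algebraMap F L (Algebra.trace F L (h x y))
    rw [htr, hal, hh.add_right, hh.add_right, hh.symm x y]
    ring
  refine ⟨{ toFun := q
            toFun_smul := ?_
            exists_companion' := ⟨B, hadd⟩ }, hq, ?_⟩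
  · intro a x
    apply hinj
    rw [hq, hsl, hsr, smul_eq_mul, map_mul, map_mul, hq]
    ring
  · intro u hu
    apply hh.nondeg
    intro v
    have h1 : ∀ w, Algebra.trace F L (h u w) = 0 := by
      intro w
      have h3 := hu w
      change q (u + w) - q u - q w = 0 at h3
      rw [hadd] at h3
      change _ + Algebra.trace F L (h u w) - _ - _ = 0 at h3
      rw [← h3]
      ring
    have hnd := (traceForm_nondegenerate F L).1 (h u v)
    apply hnd
    intro c
    rw [Algebra.traceForm_apply, mul_comm, ← hh.smul_right]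
    exact h1 _

/-- Multiplication by a generator is irreducible. -/
theorem ocun_irr {F K : Type} [Field F] [Field K] [Algebra F K] (lam : K)
    (had : Algebra.adjoin F {lam} = ⊤) (W : Submodule F K) (hW : ∀ x ∈ W, lam * x ∈ W) :
    W = ⊥ ∨ W = ⊤ := by
  by_cases hbot : W = ⊥
  · exact Or.inl hbot
  right
  obtain ⟨w, hw, hw0⟩ := (Submodule.ne_bot_iff W).1 hbot
  have key : ∀ a : K, a ∈ Algebra.adjoin F {lam} → ∀ x ∈ W, a * x ∈ W := by
    intro a ha
    induction ha using Algebra.adjoin_induction with
    | mem y hy =>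
      rw [Set.mem_singleton_iff] at hy
      subst hy
      exact hW
    | algebraMap r =>
      intro x hx
      rw [← Algebra.smul_def]
      exact W.smul_mem r hx
    | add y z _ _ hy hz =>
      intro x hx
      rw [add_mul]
      exact W.add_mem (hy x hx) (hz x hx)
    | mul y z _ _ hy hz =>
      intro x hx
      rw [mul_assoc]
      exact hy _ (hz x hx)
  rw [eq_top_iff]
  intro x _
  have h1 := key (x / w) (by rw [had]; trivial) w hw
  rwa [div_mul_cancel₀ _ hw0] at h1

theorem ocun (hvrk : VrkStmt) (hreal : OrealStmt) (hbr : ObrStmt) (hirt : OirtStmt) :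
    OcunStmt := by
  intro F K _ _ _ _ _ Q m p k lam hm hodd hfr hQ had hlam hp hp2 hpq hk hord
  obtain ⟨m', rfl⟩ := hodd
  have hm' : 1 ≤ m' := by omega
  have : Fact p.Prime := ⟨hp⟩
  have hKfin : Finite K := Module.finite_of_finite F
  obtain ⟨ch, hch⟩ := CharP.exists F
  have hchp : ch.Prime := CharP.char_is_prime F ch
  have : Fact ch.Prime := ⟨hchp⟩
  set q := Nat.card F with hqdef
  have hq2 : 2 ≤ q := Finite.one_lt_card
  -- arithmetic
  have hpm : p ^ k ∣ q ^ (2 * m' + 1) + 1 := by
    rw [← hord]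
    exact orderOf_dvd_of_pow_eq_one hlam
  have hpd : p ∣ q ^ (2 * m' + 1) + 1 := (dvd_pow_self p (by omega)).trans hpm
  have hp1 : ¬ p ∣ q - 1 := by
    intro h
    have h1 : (q : ZMod p) = 1 := by
      have h2 : ((q - 1 : ℕ) : ZMod p) = 0 := (ZMod.natCast_eq_zero_iff _ _).2 h
      rw [Nat.cast_sub (by omega)] at h2
      simpa [sub_eq_zero] using h2
    have h3 : ((q ^ (2 * m' + 1) + 1 : ℕ) : ZMod p) = 0 := (ZMod.natCast_eq_zero_iff _ _).2 hpd
    push_cast at h3
    rw [h1, one_pow] at h3
    have h4 : ((2 : ℕ) : ZMod p) = 0 := by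
      rw [← h3]
      norm_num
    rw [ZMod.natCast_eq_zero_iff] at h4
    exact hp2 ((Nat.prime_dvd_prime_iff_eq hp Nat.prime_two).1 h4)
  have hcop : Nat.Coprime (p ^ k) (q ^ 2 - 1) := by
    apply Nat.Coprime.pow_left
    rw [hp.coprime_iff_not_dvd]
    intro h
    have h1 : q ^ 2 - 1 = (q + 1) * (q - 1) := by
      have := Nat.sq_sub_sq q 1
      simpa using this
    rw [h1] at h
    rcases hp.dvd_mul.1 h with h | h
    · exact hpq h
    · exact hp1 h
  -- the field `L`
  obtain ⟨L, _, _, _, hfL⟩ : ∃ (L : Type) (_ : Field L) (_ : Algebra F L)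
      (_ : FiniteDimensional F L), finrank F L = 2 :=
    ⟨FiniteField.Extension F ch 2, inferInstance, inferInstance, inferInstance,
      FiniteField.finrank_extension F ch 2⟩
  have hLfin : Finite L := Module.finite_of_finite F
  have hLcard : Nat.card L = q ^ 2 := by
    rw [Module.natCard_eq_pow_finrank (K := F), hfL]
  obtain ⟨f⟩ := FiniteField.nonempty_algHom_of_finrank_dvd (F := F) (K := L) (L := K)
    (by rw [hfL, hfr]; exact dvd_mul_right _ _)
  let : Algebra L K := f.toRingHom.toAlgebra
  have htower : IsScalarTower F L K := IsScalarTower.of_algebraMap_eq' f.comp_algebraMap.symm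
  have hfinLK : FiniteDimensional L K := Module.Finite.of_restrictScalars_finite F L K
  have hrank : finrank L K = 2 * m' + 1 := by
    have h1 := Module.finrank_mul_finrank F L K
    rw [hfL, hfr] at h1
    exact Nat.eq_of_mul_eq_mul_left (by norm_num) h1
  have hfL' : finrank F L = 2 * 1 := by rw [hfL]
  let : StarRing L := ocunStar F L hfL'
  have hstar : ∀ x : L, star x = fr F L 1 x := fun x => rfl
  have hSQ : StarQ L q := ⟨hLcard, fun x => by rw [hstar, fr_apply, pow_one], hq2⟩
  have hadL : Algebra.adjoin L {lam} = ⊤ := by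
    rw [eq_top_iff]
    intro x _
    have h1 : Algebra.adjoin F {lam} ≤ (Algebra.adjoin L {lam}).restrictScalars F :=
      Algebra.adjoin_le (fun y hy => Algebra.subset_adjoin hy)
    have h2 : x ∈ Algebra.adjoin F {lam} := by rw [had]; trivial
    exact h1 h2
  have hlam0 : lam ≠ 0 := by
    rintro rfl
    rw [zero_pow (by positivity)] at hlam
    exact zero_ne_one hlam
  have hnorm : Algebra.norm L lam = 1 := by
    have h0 : Algebra.norm L lam ≠ 0 := Algebra.norm_ne_zero_iff.2 hlam0
    have h1 : (Algebra.norm L lam) ^ (q ^ 2 - 1) = 1 := by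
      have := Fintype.ofFinite L
      rw [← hLcard, Nat.card_eq_fintype_card]
      exact FiniteField.pow_card_sub_one_eq_one _ h0
    have h2 : (Algebra.norm L lam) ^ (p ^ k) = 1 := by
      rw [← map_pow, ← hord, pow_orderOf_eq_one, map_one]
    have h3 : orderOf (Algebra.norm L lam) ∣ Nat.gcd (p ^ k) (q ^ 2 - 1) :=
      Nat.dvd_gcd (orderOf_dvd_of_pow_eq_one h2) (orderOf_dvd_of_pow_eq_one h1)
    rw [hcop] at h3
    exact orderOf_eq_one_iff.1 (Nat.dvd_one.1 h3)
  obtain ⟨b, h, hherm, hbb, hker, hscal, hlh, hbh⟩ :=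
    hvrk L K q m' lam hSQ hm' hrank hadL hnorm hlam
  obtain ⟨P, hP, hND⟩ := ocun_form hfL' hstar h hherm
  -- isometries
  let w0 : K →ₗ[F] K := LinearMap.mulLeft F lam
  let z0 : K →ₗ[F] K := (LinearMap.mulLeft F lam⁻¹) ∘ₗ (b.restrictScalars F)
  have hw0inj : Function.Injective w0 := fun x y h => mul_left_cancel₀ hlam0 h
  have hz0inj : Function.Injective z0 := by
    intro x y h
    have h1 : b x = b y := mul_left_cancel₀ (inv_ne_zero hlam0) h
    have h2 := hker (x - y) (by rw [map_sub, h1, sub_self])
    exact sub_eq_zero.1 h2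
  let w : K ≃ₗ[F] K := LinearEquiv.ofInjectiveEndo w0 hw0inj
  let z : K ≃ₗ[F] K := LinearEquiv.ofInjectiveEndo z0 hz0inj
  have hw1 : ∀ x, w x = lam * x := fun x => rfl
  have hz1 : ∀ x, z x = lam⁻¹ * b x := fun x => rfl
  have hbraid : z * w * z = w * z * w := by
    ext x
    change lam⁻¹ * b (lam * (lam⁻¹ * b x)) = lam * (lam⁻¹ * b (lam * x))
    rw [mul_inv_cancel_left₀ hlam0, mul_inv_cancel_left₀ hlam0, hbb, inv_mul_cancel_left₀ hlam0]
  have hinvh : ∀ x y, h (lam⁻¹ * x) (lam⁻¹ * y) = h x y := by
    intro x y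
    have h1 := hlh (lam⁻¹ * x) (lam⁻¹ * y)
    rw [mul_inv_cancel_left₀ hlam0, mul_inv_cancel_left₀ hlam0] at h1
    exact h1.symm
  have hinj : Function.Injective (algebraMap F L) := (algebraMap F L).injective
  have hwO : w ∈ OV P := by
    intro v
    apply hinj
    rw [hP, hP, hw1, hlh]
  have hzO : z ∈ OV P := by
    intro v
    apply hinj
    rw [hP, hP, hz1, hinvh, hbh]
  have hwpow : ∀ (n : ℕ) (x : K), (w ^ n : K ≃ₗ[F] K) x = lam ^ n * x := by
    intro n
    induction n with
    | zero => intro x; simp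
    | succ n ih =>
      intro x
      rw [pow_succ]
      change (w ^ n : K ≃ₗ[F] K) (lam * x) = _
      rw [ih]
      ring
  have hirr : ∀ W : Submodule F K, (∀ x ∈ W, w x ∈ W) → W = ⊥ ∨ W = ⊤ :=
    fun W hW => ocun_irr lam had W hW
  have hspan : Submodule.span F (Set.range fun i : ℕ => (w ^ i) (1 : K)) = ⊤ := by
    rcases hirr (Submodule.span F (Set.range fun i : ℕ => (w ^ i) (1 : K))) (by
      intro x hx
      have h1 : (Submodule.span F (Set.range fun i : ℕ => (w ^ i) (1 : K))).map
          (w : K →ₗ[F] K) ≤ Submodule.span F (Set.range fun i : ℕ => (w ^ i) (1 : K)) := by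
        rw [Submodule.map_span, Submodule.span_le]
        rintro _ ⟨_, ⟨i, rfl⟩, rfl⟩
        apply Submodule.subset_span
        refine ⟨i + 1, ?_⟩
        change (w ^ (i + 1)) (1 : K) = w ((w ^ i) (1 : K))
        rw [pow_succ']
        rfl
      exact h1 ⟨x, hx, rfl⟩) with h0 | h0
    · exfalso
      have h1 : (1 : K) ∈ Submodule.span F (Set.range fun i : ℕ => (w ^ i) (1 : K)) :=
        Submodule.subset_span ⟨0, rfl⟩
      rw [h0, Submodule.mem_bot] at h1
      exact one_ne_zero h1
    · exact h0
  have hwOm : w ∈ OmV P := by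
    refine (hreal F K P hND w hwO 1 hspan).2 ?_
    have h1 : orderOf w ∣ p ^ k := by
      apply orderOf_dvd_of_pow_eq_one
      ext x
      rw [hwpow, ← hord, pow_orderOf_eq_one]
      simp
    exact (Odd.pow (hp.odd_of_ne_two hp2)).of_dvd_nat h1
  have hODP : OD P (p ^ k) := by
    refine hbr F K P w hwOm z hzO hbraid (p ^ k) ?_
    intro d c _ hd
    obtain ⟨a, ha⟩ := hscal (lam ^ (2 * d)) (algebraMap F L c) (fun x => by
      have h2 := hd x
      rw [hwpow, hwpow] at h2
      change lam⁻¹ * b (lam ^ (2 * d) * x) = c • (lam ^ (2 * d) * (lam⁻¹ * b x)) at h2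
      have h3 := congrArg (fun t => lam * t) h2
      rw [mul_inv_cancel_left₀ hlam0, mul_smul_comm] at h3
      rw [h3, algebraMap_smul]
      congr 1
      rw [mul_left_comm lam, mul_inv_cancel_left₀ hlam0])
    have ha0 : a ≠ 0 := by
      rintro rfl
      rw [map_zero] at ha
      exact pow_ne_zero _ hlam0 ha
    have h1 : a ^ (q ^ 2 - 1) = 1 := by
      have := Fintype.ofFinite L
      rw [← hLcard, Nat.card_eq_fintype_card]
      exact FiniteField.pow_card_sub_one_eq_one _ ha0
    have h2 : a ^ (p ^ k) = 1 := by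
      apply (algebraMap L K).injective
      rw [map_pow, ← ha, ← pow_mul, mul_comm, pow_mul, ← hord, pow_orderOf_eq_one, one_pow,
        map_one]
    have h3 : orderOf a ∣ Nat.gcd (p ^ k) (q ^ 2 - 1) :=
      Nat.dvd_gcd (orderOf_dvd_of_pow_eq_one h2) (orderOf_dvd_of_pow_eq_one h1)
    rw [hcop] at h3
    have h4 : a = 1 := orderOf_eq_one_iff.1 (Nat.dvd_one.1 h3)
    rw [h4, map_one] at ha
    have h5 : p ^ k ∣ 2 * d := by
      rw [← hord]
      exact orderOf_dvd_of_pow_eq_one ha
    refine Nat.Coprime.dvd_of_dvd_mul_left ?_ h5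
    apply Nat.Coprime.pow_left
    rw [Nat.coprime_primes hp Nat.prime_two]
    exact hp2
  intro d hd hlaw
  exact hODP d hd (hirt F K K P Q (2 * m' + 1) hND (by omega) hfr hfr hQ w hwO hirr d hlaw)

end Pool.Agent.Eng.H13
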